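import Pool.Agent.Lib.MP_eccbcf_an.Surf
import Pool.Agent.Lib.MP_eccbcf_an.Data
import Pool.Agent.Lib.MP_eccbcf_an.Domain
import Pool.Agent.Lib.MP_eccbcf_an.Hull
import Pool.Agent.Lib.MP_eccbcf_an.NoStein
import Pool.Agent.Lib.MP_eccbcf_an.Supp

set_option autoImplicit false

namespace Pool.Agent.Results.MP_eccbcf_an.FineWorm

open Pool.Agent.Lib.MP_eccbcf_an in
/-- A smoothly bounded, holomorphically convex domain in `ℂ³` that satisfies the boundary hull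
condition and whose closure has no neighbourhood basis of holomorphically convex open sets. -/
theorem result :
    ∃ Ω : Set (Fin 3 → ℂ), IsOpen Ω ∧ IsConnected Ω ∧ Bornology.IsBounded Ω ∧
      (∃ ρ : (Fin 3 → ℂ) → ℝ, ContDiff ℝ ((⊤ : ℕ∞) : WithTop ℕ∞) ρ ∧
        Ω = {z | ρ z < 0} ∧ ∀ z, ρ z = 0 → fderiv ℝ ρ z ≠ 0) ∧
      (∀ K ⊆ Ω, IsCompact K →
        IsCompact {z ∈ Ω | ∀ f : (Fin 3 → ℂ) → ℂ, DifferentiableOn ℂ f Ω →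
          ∀ c : ℝ, (∀ w ∈ K, ‖f w‖ ≤ c) → ‖f z‖ ≤ c}) ∧
      (∀ K ⊆ closure Ω, IsCompact K → ∀ p ∈ frontier Ω, p ∉ K →
        ∃ φ : (Fin 3 → ℂ) → ℝ, ContinuousOn φ (closure Ω) ∧
          (∀ a ∈ Ω, ∀ b : Fin 3 → ℂ, ∀ r : ℝ, 0 ≤ r → (∀ ζ : ℂ, ‖ζ‖ ≤ r → a + ζ • b ∈ Ω) →
            φ a ≤ (2 * Real.pi)⁻¹ * ∫ θ in (0:ℝ)..(2 * Real.pi),
              φ (a + ((r : ℂ) * Complex.exp ((θ : ℂ) * Complex.I)) • b)) ∧
          ∃ c : ℝ, (∀ w ∈ K, φ w ≤ c) ∧ c < φ p) ∧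
      ∃ U : Set (Fin 3 → ℂ), IsOpen U ∧ closure Ω ⊆ U ∧
        ∀ V : Set (Fin 3 → ℂ), IsOpen V → closure Ω ⊆ V → V ⊆ U →
          ∃ K ⊆ V, IsCompact K ∧
            ¬ IsCompact {z ∈ V | ∀ f : (Fin 3 → ℂ) → ℂ, DifferentiableOn ℂ f V →
              ∀ c : ℝ, (∀ w ∈ K, ‖f w‖ ≤ c) → ‖f z‖ ≤ c} := by
  obtain ⟨g, hB⟩ := exists_base fun _ => exists_sub
  obtain ⟨η, e, Ψ, h⟩ := exists_psi hB.smooth hB.zero
  obtain ⟨U, hU, hc, hV⟩ := no_stein hB h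
  refine ⟨{q | rho Ψ q < 0}, isOpen_dom h, isConnected_dom h,
    (isCompact_cl h).isBounded.subset fun q hq => le_of_lt (α := ℝ) hq,
    ⟨rho Ψ, contDiff_rho h, rfl, fderiv_rho_ne h⟩, holConvex_dom h (suppAll hB h),
    fun K hK hc p hp hpK => ?_, U, hU, hc, fun V h1 h2 h3 => ?_⟩
  · by_contra hn
    refine hpK ((hullCond_dom h (suppAll hB h) (suppZero hB h) K hK hc).subset
      ⟨⟨frontier_subset_closure hp, fun φ h1 h2 c h3 => ?_⟩, hp⟩).1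
    exact not_lt.1 fun h4 => hn ⟨φ, h1, h2, c, h3, h4⟩
  · by_contra hn
    exact hV V h1 h2 h3 fun K hK hc => not_not.1 fun h4 => hn ⟨K, hK, hc, h4⟩

end Pool.Agent.Results.MP_eccbcf_an.FineWorm
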